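import Pool.Agent.Helper52.TC.Spec
import Pool.Agent.Helper38.ELP.Asm
import Pool.Agent.Helper68.ELP.D12

/-! Module A5: crossing over keeps the forced edges and uses allowed edges only. -/

set_option autoImplicit false

namespace Pool.Agent.Helper74.TC

open Pool.Agent.Helper52.TC
open Pool.Agent.Helper38.ELP (Good Vset posN useH useV UnitTour UnitStep)

theorem unitStep_of_un {p q : ℕ × ℕ} (h : Un p q) :
    UnitStep (Pool.Agent.Helper68.ELP.cst p) (Pool.Agent.Helper68.ELP.cst q) := by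
  obtain ⟨a, b⟩ := p
  obtain ⟨c, d⟩ := q
  unfold Un at h
  simp only [Prod.mk.injEq] at h
  unfold UnitStep Pool.Agent.Helper68.ELP.cst
  simp only
  rcases h with ⟨h1, h2⟩ | ⟨h1, h2⟩ | ⟨h1, h2⟩ | ⟨h1, h2⟩ <;> subst h1 <;> subst h2 <;>
    push_cast <;> ring

theorem unitTour_of_uTour {N : ℕ} {τ : Equiv.Perm (Fin (Vset N).card)} (h : UTour (vpos N) τ) :
    UnitTour (posN N) τ := fun i => unitStep_of_un (h i)

theorem toNat_true_of {a b c d : Bool} (h : a.toNat + b.toNat = c.toNat + d.toNat) :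
    (c = true → a = true ∨ b = true) ∧ (d = true → a = true ∨ b = true) ∧
      (a = true → b = true → c = true ∧ d = true) := by
  revert h
  cases a <;> cases b <;> cases c <;> cases d <;> simp

theorem A5 (hA4 : specA4) : specA5 := by
  intro M τ hM hU h0 h1 htc
  have hcard := Pool.Agent.Helper38.ELP.card_ge M
  have hH : ∀ x y, (tH _ (τ 0) x y).toNat + (tH _ (τ 1) x y).toNat =
      (tH _ (τ 2) x y).toNat + (tH _ (τ 3) x y).toNat := by
    intro x y
    rw [(hA4 _ (τ 0) hcard (hU 0) x y).1, (hA4 _ (τ 1) hcard (hU 1) x y).1,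
      (hA4 _ (τ 2) hcard (hU 2) x y).1, (hA4 _ (τ 3) hcard (hU 3) x y).1,
      ← Finset.sum_add_distrib, ← Finset.sum_add_distrib]
    refine Finset.sum_congr rfl fun u _ => ?_
    rw [← Finset.sum_add_distrib, ← Finset.sum_add_distrib]
    refine Finset.sum_congr rfl fun v _ => ?_
    by_cases h : vpos (2 * M + 2) u = (x, y) ∧ vpos (2 * M + 2) v = (x + 1, y)
    · rw [if_pos h, if_pos h, if_pos h, if_pos h]
      apply htc
      rintro rfl
      have h' := h.1.symm.trans h.2
      rw [Prod.mk.injEq] at h'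
      omega
    · rw [if_neg h, if_neg h, if_neg h, if_neg h]
  have hV : ∀ x y, (tV _ (τ 0) x y).toNat + (tV _ (τ 1) x y).toNat =
      (tV _ (τ 2) x y).toNat + (tV _ (τ 3) x y).toNat := by
    intro x y
    rw [(hA4 _ (τ 0) hcard (hU 0) x y).2, (hA4 _ (τ 1) hcard (hU 1) x y).2,
      (hA4 _ (τ 2) hcard (hU 2) x y).2, (hA4 _ (τ 3) hcard (hU 3) x y).2,
      ← Finset.sum_add_distrib, ← Finset.sum_add_distrib]
    refine Finset.sum_congr rfl fun u _ => ?_
    rw [← Finset.sum_add_distrib, ← Finset.sum_add_distrib]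
    refine Finset.sum_congr rfl fun v _ => ?_
    by_cases h : vpos (2 * M + 2) u = (x, y) ∧ vpos (2 * M + 2) v = (x, y + 1)
    · rw [if_pos h, if_pos h, if_pos h, if_pos h]
      apply htc
      rintro rfl
      have h' := h.1.symm.trans h.2
      rw [Prod.mk.injEq] at h'
      omega
    · rw [if_neg h, if_neg h, if_neg h, if_neg h]
  have d2 := Pool.Agent.Helper68.ELP.d1 _ (τ 2) hcard (unitTour_of_uTour (hU 2))
  have d3 := Pool.Agent.Helper68.ELP.d1 _ (τ 3) hcard (unitTour_of_uTour (hU 3))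
  refine ⟨⟨?_, ?_, ?_, ?_, d2.1, d2.2⟩, ⟨?_, ?_, ?_, ?_, d3.1, d3.2⟩, hH, hV⟩
  · intro x y h
    exact ((toNat_true_of (hH x y)).1 h).elim (h0.alwH x y) (h1.alwH x y)
  · intro x y h
    exact ((toNat_true_of (hV x y)).1 h).elim (h0.alwV x y) (h1.alwV x y)
  · intro x y h
    exact ((toNat_true_of (hH x y)).2.2 (h0.frcH x y h) (h1.frcH x y h)).1
  · intro x y h
    exact ((toNat_true_of (hV x y)).2.2 (h0.frcV x y h) (h1.frcV x y h)).1
  · intro x y h
    exact ((toNat_true_of (hH x y)).2.1 h).elim (h0.alwH x y) (h1.alwH x y)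
  · intro x y h
    exact ((toNat_true_of (hV x y)).2.1 h).elim (h0.alwV x y) (h1.alwV x y)
  · intro x y h
    exact ((toNat_true_of (hH x y)).2.2 (h0.frcH x y h) (h1.frcH x y h)).2
  · intro x y h
    exact ((toNat_true_of (hV x y)).2.2 (h0.frcV x y h) (h1.frcV x y h)).2

end Pool.Agent.Helper74.TC
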