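import Pool.Agent.Helper52.TC.Spec

/-! Module K: counting. -/

set_option autoImplicit false

namespace Pool.Agent.Helper74.TC

open Pool.Agent.Helper52.TC

theorem card_agree {M : ℕ} (γ : Fin M → Bool) (X : Finset (Fin M)) (hX : M ≤ 3 * X.card) :
    ((Finset.univ : Finset (Fin M → Bool)).filter fun β => ∀ c ∈ X, β c = γ c).card ≤
      2 ^ (M - (M + 2) / 3) := by
  classical
  have h1 : ((Finset.univ : Finset (Fin M → Bool)).filter fun β => ∀ c ∈ X, β c = γ c).card ≤
      (Finset.univ : Finset ((Xᶜ : Finset (Fin M)) → Bool)).card := by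
    apply Finset.card_le_card_of_injOn (fun β c => β c.1)
    · intro β _; exact Finset.mem_univ _
    · intro β hβ β' hβ' h
      rw [Finset.mem_coe, Finset.mem_filter] at hβ hβ'
      funext c
      by_cases hc : c ∈ X
      · rw [hβ.2 c hc, hβ'.2 c hc]
      · exact congrFun h ⟨c, Finset.mem_compl.2 hc⟩
  have h2 : (Finset.univ : Finset ((Xᶜ : Finset (Fin M)) → Bool)).card = 2 ^ (M - X.card) := by
    rw [Finset.card_univ, Fintype.card_fun, Fintype.card_bool, Fintype.card_coe, Finset.card_compl,
      Fintype.card_fin]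
  rw [h2] at h1
  refine h1.trans (Nat.pow_le_pow_right (by norm_num) ?_)
  omega

theorem K : specK := by
  classical
  intro M s κ X Y hκ hX hY h
  have h1 : (Finset.univ : Finset (Fin M → Bool)).card = 2 ^ M := by
    rw [Finset.card_univ, Fintype.card_fun, Fintype.card_bool, Fintype.card_fin]
  have h2 := Finset.card_le_mul_card_image (f := κ) (Finset.univ : Finset (Fin M → Bool))
    (2 * 2 ^ (M - (M + 2) / 3)) (by
      intro a ha
      obtain ⟨γ, -, rfl⟩ := Finset.mem_image.1 ha
      have hsub : (Finset.univ : Finset (Fin M → Bool)).filter (fun β => κ β = κ γ) ⊆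
          ((Finset.univ : Finset (Fin M → Bool)).filter fun β => ∀ c ∈ X γ, β c = γ c) ∪
          ((Finset.univ : Finset (Fin M → Bool)).filter fun β => ∀ c ∈ Y γ, β c = γ c) := by
        intro β hβ
        rw [Finset.mem_filter] at hβ
        rw [Finset.mem_union, Finset.mem_filter, Finset.mem_filter]
        exact (h β γ hβ.2).imp (fun h => ⟨Finset.mem_univ _, h⟩) (fun h => ⟨Finset.mem_univ _, h⟩)
      calc _ ≤ _ := Finset.card_le_card hsub
        _ ≤ _ := Finset.card_union_le _ _
        _ ≤ 2 ^ (M - (M + 2) / 3) + 2 ^ (M - (M + 2) / 3) :=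
          add_le_add (card_agree γ _ (hX γ)) (card_agree γ _ (hY γ))
        _ = _ := by ring)
  have h3 : ((Finset.univ : Finset (Fin M → Bool)).image κ).card ≤ s := by
    calc _ ≤ (Finset.range s).card := Finset.card_le_card (by
          intro a ha
          obtain ⟨γ, -, rfl⟩ := Finset.mem_image.1 ha
          exact Finset.mem_range.2 (hκ γ))
      _ = s := Finset.card_range s
  rw [h1] at h2
  calc 2 ^ M ≤ 2 * 2 ^ (M - (M + 2) / 3) * _ := h2
    _ ≤ 2 * 2 ^ (M - (M + 2) / 3) * s := Nat.mul_le_mul_left _ h3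
    _ = 2 * s * 2 ^ (M - (M + 2) / 3) := by ring

end Pool.Agent.Helper74.TC
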